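import Mathlib

/-!
# Context-preserving jumping context-sensitive grammars and jumping monotonous grammars
-/

set_option autoImplicit false

namespace Pool.Agent.Results.MP_b8a1e8_lc.NotIncluded

/-- A grammar with terminal alphabet `T`: a finite set `N` of nonterminals, a finite set `P` of
rules `x → y` over `T ∪ N` whose left-hand sides contain a nonterminal, and a start symbol. -/
structure Grammar (T : Type) where
  N : Type
  finN : Finite N
  P : Set (List (Symbol T N) × List (Symbol T N))
  finP : P.Finite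
  lhs : ∀ r ∈ P, ∃ A : N, Symbol.nonterminal A ∈ r.1
  S : N

variable {T : Type}

/-- Monotonous grammars: `|x| ≤ |y|` for every rule. -/
def IsMonotonous (G : Grammar T) : Prop := ∀ r ∈ G.P, r.1.length ≤ r.2.length

/-- Context-sensitive grammars: every rule has the form `αAβ → αγβ` with `γ` nonempty. -/
def IsContextSensitive (G : Grammar T) : Prop :=
  ∀ r ∈ G.P, ∃ (α β γ : List (Symbol T G.N)) (A : G.N), γ ≠ [] ∧
    r = (α ++ [Symbol.nonterminal A] ++ β, α ++ γ ++ β)

/-- The jumping step `u x v ⇒ u' y v'` with `x → y` a rule and `u v = u' v'`. -/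
def JStep (G : Grammar T) (w w' : List (Symbol T G.N)) : Prop :=
  ∃ x y u v u' v' : List (Symbol T G.N), (x, y) ∈ G.P ∧ w = u ++ x ++ v ∧ u ++ v = u' ++ v' ∧
    w' = u' ++ y ++ v'

/-- The context-preserving jumping step `u α A β v ⇒ u' α γ β v'` with `αAβ → αγβ` a rule and
`u α β v = u' α β v'`. -/
def BStep (G : Grammar T) (w w' : List (Symbol T G.N)) : Prop :=
  ∃ (α β γ u v u' v' : List (Symbol T G.N)) (A : G.N), γ ≠ [] ∧
    (α ++ [Symbol.nonterminal A] ++ β, α ++ γ ++ β) ∈ G.P ∧
    w = u ++ α ++ [Symbol.nonterminal A] ++ β ++ v ∧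
    u ++ α ++ β ++ v = u' ++ α ++ β ++ v' ∧
    w' = u' ++ α ++ γ ++ β ++ v'

/-- The language `L(G, ϱ)` of the terminal words derived from the start symbol with `ϱ`-steps. -/
def lang (G : Grammar T) (rho : List (Symbol T G.N) → List (Symbol T G.N) → Prop) :
    Set (List T) :=
  {w | Relation.ReflTransGen rho [Symbol.nonterminal G.S] (w.map Symbol.terminal)}

/-! ### The grammar for `a^n b^n` -/

abbrev Sy := Symbol (Fin 2) (Fin 2)

abbrev sa : Sy := Symbol.terminal 0
abbrev sb : Sy := Symbol.terminal 1
abbrev sS0 : Sy := Symbol.nonterminal 0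
abbrev sS : Sy := Symbol.nonterminal 1

/-- The rules `S₀ → aSb`, `S₀ → ab`, `aSb → a aSb b`, `aSb → a ab b`. -/
def PP : Set (List Sy × List Sy) :=
  {([sS0], [sa, sS, sb]), ([sS0], [sa, sb]), ([sa, sS, sb], [sa, sa, sS, sb, sb]),
    ([sa, sS, sb], [sa, sa, sb, sb])}

def GG : Grammar (Fin 2) where
  N := Fin 2
  finN := inferInstance
  P := PP
  finP := by
    unfold PP
    exact Set.toFinite _
  lhs := by
    intro r hr
    rcases hr with rfl | rfl | rfl | rfl
    · exact ⟨0, by simp⟩
    · exact ⟨0, by simp⟩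
    · exact ⟨1, by simp⟩
    · exact ⟨1, by simp⟩
  S := 0

theorem GG_cs : IsContextSensitive GG := by
  intro r hr
  rcases hr with rfl | rfl | rfl | rfl
  · exact ⟨[], [], [sa, sS, sb], (0 : Fin 2), by simp, rfl⟩
  · exact ⟨[], [], [sa, sb], (0 : Fin 2), by simp, rfl⟩
  · exact ⟨[sa], [sb], [sa, sS, sb], (1 : Fin 2), by simp, rfl⟩
  · exact ⟨[sa], [sb], [sa, sb], (1 : Fin 2), by simp, rfl⟩

/-- the word `a^n x b^n` -/
def wd (n : ℕ) (x : List Sy) : List Sy := List.replicate n sa ++ x ++ List.replicate n sb

theorem wd_in (n : ℕ) (x : List Sy) : wd n ([sa] ++ x ++ [sb]) = wd (n + 1) x := by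
  rw [wd, wd, List.replicate_succ' (a := sa), List.replicate_succ (a := sb)]
  simp [List.append_assoc]

theorem wd_split (n : ℕ) (x : List Sy) :
    wd (n + 1) x = List.replicate n sa ++ [sa] ++ x ++ [sb] ++ List.replicate n sb := by
  rw [← wd_in, wd]
  simp [List.append_assoc]

/-- all letters before an `a` are `a`, all letters after a `b` are `b` -/
theorem unique_ab {n : ℕ} {u v : List Sy} (h : wd n [] = u ++ [sa] ++ [sb] ++ v) :
    u ++ [sa] = List.replicate n sa ∧ [sb] ++ v = List.replicate n sb := by
  have h' : List.replicate n sa ++ List.replicate n sb = (u ++ [sa]) ++ ([sb] ++ v) := by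
    simpa [wd, List.append_assoc] using h
  rcases List.append_eq_append_iff.1 h' with ⟨c, hc, hd⟩ | ⟨c, hc, hd⟩
  · -- u ++ [sa] = a^n ++ c, b^n = c ++ [sb] ++ v
    have hcn : c = [] := by
      rcases List.eq_nil_or_concat c with h0 | ⟨c', x, rfl⟩
      · exact h0
      · exfalso
        have hx : sa = x := by
          rw [List.concat_eq_append, ← List.append_assoc] at hc
          exact (List.cons.inj (List.append_inj' hc rfl).2).1
        have : x ∈ List.replicate n sb := by rw [hd]; simp
        rw [← hx] at this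
        have := List.eq_of_mem_replicate this
        simp at this
    subst hcn
    exact ⟨by simpa using hc, by simpa using hd.symm⟩
  · -- a^n = u ++ [sa] ++ c, [sb] ++ v = c ++ b^n
    have hcn : c = [] := by
      cases c with
      | nil => rfl
      | cons x c =>
        exfalso
        have hx : sb = x := by
          rw [List.cons_append, List.cons_append] at hd
          exact (List.cons.inj hd).1
        have : x ∈ List.replicate n sa := by rw [hc]; simp
        rw [← hx] at this
        have := List.eq_of_mem_replicate this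
        simp at this
    subst hcn
    exact ⟨by simpa using hc.symm, by simpa using hd⟩

/-- the position of the nonterminal is unique -/
theorem unique_nt {n : ℕ} {u v : List Sy} {A : Fin 2}
    (h : wd n [sS] = u ++ [Symbol.nonterminal A] ++ v) :
    u = List.replicate n sa ∧ A = 1 ∧ v = List.replicate n sb := by
  have h' : List.replicate n sa ++ (sS :: List.replicate n sb) =
      u ++ (Symbol.nonterminal A :: v) := by
    simpa [wd, List.append_assoc] using h
  rcases List.append_eq_append_iff.1 h' with ⟨c, hc, hd⟩ | ⟨c, hc, hd⟩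
  · cases c with
    | nil =>
      simp only [List.nil_append, List.cons.injEq] at hd
      refine ⟨by simpa using hc, ?_, hd.2.symm⟩
      exact (Symbol.nonterminal.inj hd.1).symm
    | cons x c =>
      exfalso
      rw [List.cons_append] at hd
      have h1 := (List.cons.inj hd).2
      have : Symbol.nonterminal A ∈ List.replicate n sb := by rw [h1]; simp
      have := List.eq_of_mem_replicate this
      simp at this
  · cases c with
    | nil =>
      simp only [List.nil_append, List.cons.injEq] at hd
      refine ⟨by simpa using hc.symm, ?_, hd.2⟩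
      exact Symbol.nonterminal.inj hd.1
    | cons x c =>
      exfalso
      rw [List.cons_append] at hd
      have h1 := (List.cons.inj hd).1
      have : x ∈ List.replicate n sa := by rw [hc]; simp
      rw [← h1] at this
      have := List.eq_of_mem_replicate this
      simp at this

/-- the sentential forms -/
def Frm (w : List Sy) : Prop :=
  w = [sS0] ∨ (∃ n, w = wd (n + 1) [sS]) ∨ ∃ n, w = wd (n + 1) []

theorem decomp_one {α β : List Sy} {A : Fin 2} {B : Fin 2}
    (h : α ++ [Symbol.nonterminal A] ++ β = [Symbol.nonterminal B]) :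
    α = [] ∧ β = [] ∧ A = B := by
  rcases α with _ | ⟨x, α⟩
  · simp at h
    exact ⟨rfl, h.2, h.1⟩
  · have := congrArg List.length h
    simp at this

theorem decomp_three {α β : List Sy} {A : Fin 2}
    (h : α ++ [Symbol.nonterminal A] ++ β = [sa, sS, sb]) :
    α = [sa] ∧ β = [sb] ∧ A = 1 := by
  rcases α with _ | ⟨x, _ | ⟨y, _ | ⟨z, α⟩⟩⟩
  · simp at h
  · simp at h
    obtain ⟨h1, h2, h3⟩ := h
    exact ⟨by rw [h1], h3, h2⟩
  · simp at h
  · have := congrArg List.length h
    simp at this

theorem nt_not_mem (n : ℕ) (A : Fin 2) : Symbol.nonterminal A ∉ wd n [] := by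
  intro h
  simp only [wd, List.append_nil, List.mem_append] at h
  rcases h with h | h <;> simpa using List.eq_of_mem_replicate h

theorem bstep_iff (w w' : List Sy) : BStep GG w w' ↔
    ∃ (α β γ u v u' v' : List Sy) (A : Fin 2), γ ≠ [] ∧
    (α ++ [Symbol.nonterminal A] ++ β, α ++ γ ++ β) ∈ PP ∧
    w = u ++ α ++ [Symbol.nonterminal A] ++ β ++ v ∧
    u ++ α ++ β ++ v = u' ++ α ++ β ++ v' ∧
    w' = u' ++ α ++ γ ++ β ++ v' := Iff.rfl

theorem Frm_step {w w' : List Sy} (hw : Frm w) (h : BStep GG w w') : Frm w' := by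
  obtain ⟨α, β, γ, u, v, u', v', A, _, hP, h1, h2, h3⟩ := (bstep_iff w w').1 h
  have hA : Symbol.nonterminal A ∈ w := by rw [h1]; simp
  -- the possible decompositions of the rule
  have hcases : (α = [] ∧ β = [] ∧ A = 0 ∧ (γ = [sa, sS, sb] ∨ γ = [sa, sb])) ∨
      (α = [sa] ∧ β = [sb] ∧ A = 1 ∧ (γ = [sa, sS, sb] ∨ γ = [sa, sb])) := by
    rcases hP with hP | hP | hP | hP
    · obtain ⟨e1, e2⟩ := Prod.mk.inj hP
      obtain ⟨rfl, rfl, rfl⟩ := decomp_one e1
      left
      exact ⟨rfl, rfl, rfl, Or.inl (by simpa using e2)⟩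
    · obtain ⟨e1, e2⟩ := Prod.mk.inj hP
      obtain ⟨rfl, rfl, rfl⟩ := decomp_one e1
      left
      exact ⟨rfl, rfl, rfl, Or.inr (by simpa using e2)⟩
    · obtain ⟨e1, e2⟩ := Prod.mk.inj hP
      obtain ⟨rfl, rfl, rfl⟩ := decomp_three e1
      right
      refine ⟨rfl, rfl, rfl, Or.inl ?_⟩
      have e3 : γ ++ [sb] = [sa, sS, sb] ++ [sb] := by simpa using e2
      exact List.append_cancel_right e3
    · obtain ⟨e1, e2⟩ := Prod.mk.inj hP
      obtain ⟨rfl, rfl, rfl⟩ := decomp_three e1
      right
      refine ⟨rfl, rfl, rfl, Or.inr ?_⟩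
      have e3 : γ ++ [sb] = [sa, sb] ++ [sb] := by simpa using e2
      exact List.append_cancel_right e3
  rcases hw with rfl | ⟨n, rfl⟩ | ⟨n, rfl⟩
  · rcases hcases with ⟨rfl, rfl, rfl, hγ⟩ | ⟨rfl, rfl, rfl, _⟩
    · have hu : u = [] ∧ v = [] := by
        have e : u ++ [Symbol.nonterminal (0 : Fin 2)] ++ v = [sS0] := by simpa using h1.symm
        obtain ⟨e1, e2, _⟩ := decomp_one e
        exact ⟨e1, e2⟩
      obtain ⟨rfl, rfl⟩ := hu
      have hu' : u' = [] ∧ v' = [] := by
        have : [] = u' ++ v' := by simpa using h2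
        exact List.append_eq_nil_iff.1 this.symm
      obtain ⟨rfl, rfl⟩ := hu'
      rcases hγ with rfl | rfl
      · right; left
        exact ⟨0, by rw [h3]; rfl⟩
      · right; right
        exact ⟨0, by rw [h3]; rfl⟩
    · exfalso
      simp at hA
  · rcases hcases with ⟨rfl, rfl, rfl, hγ⟩ | ⟨rfl, rfl, rfl, hγ⟩
    · exfalso
      have e : wd (n + 1) [sS] = u ++ [Symbol.nonterminal (0 : Fin 2)] ++ v := by
        simpa using h1
      have := (unique_nt e).2.1
      exact absurd this (by decide)
    · have e : wd (n + 1) [sS] = (u ++ [sa]) ++ [Symbol.nonterminal (1 : Fin 2)] ++ ([sb] ++ v) := by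
        simpa [List.append_assoc] using h1
      obtain ⟨e1, _, e2⟩ := unique_nt e
      have e3 : wd (n + 1) [] = u' ++ [sa] ++ [sb] ++ v' := by
        rw [← h2, wd, ← e1, ← e2]
        simp [List.append_assoc]
      obtain ⟨e4, e5⟩ := unique_ab e3
      have e6 : w' = wd (n + 1) γ := by
        rw [h3, wd, ← e4, ← e5]
        simp [List.append_assoc]
      rcases hγ with rfl | rfl
      · right; left
        exact ⟨n + 1, by rw [e6]; exact wd_in (n + 1) [sS]⟩
      · right; right
        exact ⟨n + 1, by rw [e6]; exact wd_in (n + 1) []⟩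
  · exact absurd hA (nt_not_mem _ _)

theorem step_in (n : ℕ) {γ : List Sy} (hγ : γ ≠ [])
    (hP : ([sa] ++ [Symbol.nonterminal (1 : Fin 2)] ++ [sb], [sa] ++ γ ++ [sb]) ∈ PP) :
    BStep GG (wd (n + 1) [sS]) (wd (n + 1) γ) := by
  refine ⟨[sa], [sb], γ, List.replicate n sa, List.replicate n sb, List.replicate n sa,
    List.replicate n sb, (1 : Fin 2), hγ, hP, ?_, rfl, ?_⟩
  · exact wd_split n [sS]
  · exact wd_split n γ

theorem derives_S (n : ℕ) :
    Relation.ReflTransGen (BStep GG) [Symbol.nonterminal GG.S] (wd (n + 1) [sS]) := by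
  induction n with
  | zero =>
    refine Relation.ReflTransGen.single ?_
    exact ⟨[], [], [sa, sS, sb], [], [], [], [], (0 : Fin 2), by simp, Or.inl rfl, rfl, rfl, rfl⟩
  | succ n ih =>
    refine ih.tail ?_
    have h := step_in n (γ := [sa, sS, sb]) (by simp) (Or.inr (Or.inr (Or.inl rfl)))
    have e : wd (n + 1) [sa, sS, sb] = wd (n + 1 + 1) [sS] := wd_in (n + 1) [sS]
    rwa [e] at h

theorem derives_nil (n : ℕ) :
    Relation.ReflTransGen (BStep GG) [Symbol.nonterminal GG.S] (wd (n + 1) []) := by
  cases n with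
  | zero =>
    refine Relation.ReflTransGen.single ?_
    exact ⟨[], [], [sa, sb], [], [], [], [], (0 : Fin 2), by simp, Or.inr (Or.inl rfl), rfl, rfl, rfl⟩
  | succ n =>
    refine (derives_S n).tail ?_
    have h := step_in n (γ := [sa, sb]) (by simp) (Or.inr (Or.inr (Or.inr rfl)))
    have e : wd (n + 1) [sa, sb] = wd (n + 1 + 1) [] := wd_in (n + 1) []
    rwa [e] at h

/-- the word `a^n b^n` -/
def ab (n : ℕ) : List (Fin 2) := List.replicate n 0 ++ List.replicate n 1

theorem ab_map (n : ℕ) : (ab n).map Symbol.terminal = (wd n [] : List Sy) := by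
  simp [ab, wd]

theorem mem_lang (w : List (Fin 2)) : w ∈ lang GG (BStep GG) ↔ ∃ n, w = ab (n + 1) := by
  constructor
  · intro h
    have hF : Frm (w.map Symbol.terminal) := by
      have key : ∀ z : List Sy, Relation.ReflTransGen (BStep GG) [sS0] z → Frm z := by
        intro z hz
        induction hz with
        | refl => left; rfl
        | tail _ h ih => exact Frm_step ih h
      exact key _ h
    have hnt : ∀ A : Fin 2, (Symbol.nonterminal A : Sy) ∉ w.map Symbol.terminal := by
      intro A hA
      obtain ⟨x, _, hx⟩ := List.mem_map.1 hA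
      simp at hx
    rcases hF with hF | ⟨n, hF⟩ | ⟨n, hF⟩
    · exact absurd (by rw [hF]; simp) (hnt 0)
    · exact absurd (by rw [hF]; simp [wd]) (hnt 1)
    · refine ⟨n, ?_⟩
      rw [← ab_map] at hF
      exact List.map_injective_iff.2 (fun x y h => Symbol.terminal.inj h) hF
  · rintro ⟨n, rfl⟩
    have h := derives_nil n
    rw [← ab_map] at h
    exact h

theorem ab_sorted (n : ℕ) : (ab n).Pairwise (· ≤ ·) := by
  rw [ab, List.pairwise_append]
  refine ⟨List.pairwise_replicate.2 (Or.inr le_rfl), List.pairwise_replicate.2 (Or.inr le_rfl), ?_⟩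
  intro a ha b _
  rw [List.eq_of_mem_replicate ha]
  exact Fin.zero_le _

theorem ab_length (n : ℕ) : (ab n).length = 2 * n := by
  simp [ab]; omega

theorem first_letter {n : ℕ} {x z : List (Fin 2)} (h : ab (n + 1) = x ++ z) (hx : x ≠ []) :
    (0 : Fin 2) ∈ x := by
  cases x with
  | nil => exact absurd rfl hx
  | cons y x =>
    rw [ab, List.replicate_succ, List.cons_append, List.cons_append] at h
    rw [← (List.cons.inj h).1]
    exact List.mem_cons_self

theorem last_letter {n : ℕ} {x z : List (Fin 2)} (h : ab (n + 1) = z ++ x) (hx : x ≠ []) :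
    (1 : Fin 2) ∈ x := by
  rcases List.eq_nil_or_concat x with h0 | ⟨x', y, rfl⟩
  · exact absurd h0 hx
  · have h1 : ab (n + 1) = (List.replicate (n + 1) 0 ++ List.replicate n 1) ++ [1] := by
      rw [ab, List.replicate_succ' (a := (1 : Fin 2)), List.append_assoc]
    rw [h1, List.concat_eq_append, ← List.append_assoc] at h
    have := (List.append_inj' h rfl).2
    rw [(List.cons.inj this).1]
    simp

/-- the main point: two nonempty words with `y z` and `z y` in the language do not exist -/
theorem no_commute {y z : List (Fin 2)} {m n : ℕ} (h1 : ab (m + 1) = y ++ z)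
    (h2 : ab (n + 1) = z ++ y) (hy : y ≠ []) : z = [] := by
  by_contra hz
  have a1 := last_letter h2 hy
  have a2 := first_letter h2 hz
  have hs := ab_sorted (m + 1)
  rw [h1, List.pairwise_append] at hs
  have := hs.2.2 1 a1 0 a2
  exact absurd this (by decide)

/-- There is a context-sensitive grammar whose language under context-preserving jumping steps is
the language of no monotonous grammar under jumping steps. -/
theorem result : ∃ G : Grammar (Fin 2), IsContextSensitive G ∧
    ∀ H : Grammar (Fin 2), IsMonotonous H → lang H (JStep H) ≠ lang G (BStep G) := by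
  refine ⟨GG, GG_cs, ?_⟩
  intro H hmon heq
  have hmem : ∀ w, w ∈ lang H (JStep H) ↔ ∃ n, w = ab (n + 1) := by
    intro w
    rw [heq, mem_lang]
  -- a bound for the lengths of the right-hand sides
  obtain ⟨K, hK⟩ : ∃ K : ℕ, ∀ r ∈ H.P, r.2.length ≤ K := by
    obtain ⟨K, hK⟩ := (H.finP.image (fun r => r.2.length)).bddAbove
    exact ⟨K, fun r hr => hK ⟨r, hr, rfl⟩⟩
  have hw : ab (K + 1) ∈ lang H (JStep H) := (hmem _).2 ⟨K, rfl⟩
  have hw' : Relation.ReflTransGen (JStep H) [Symbol.nonterminal H.S]
    ((ab (K + 1)).map Symbol.terminal) := hw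
  rcases Relation.ReflTransGen.cases_tail hw' with h | ⟨c, hc, hstep⟩
  · have : (Symbol.nonterminal H.S : Symbol (Fin 2) H.N) ∈
        (ab (K + 1)).map (Symbol.terminal (N := H.N)) := by
      rw [h]; simp
    obtain ⟨x, _, hx⟩ := List.mem_map.1 this
    simp at hx
  · obtain ⟨x, y, u, v, u', v', hP, h1, h2, h3⟩ := hstep
    -- the inserted word and the rest are terminal
    obtain ⟨p, q, hp1, hp2, hp3⟩ := List.map_eq_append_iff.1 h3
    obtain ⟨s, t, hs1, hs2, hs3⟩ := List.map_eq_append_iff.1 hp2
    -- u' = s, y = t, v' = q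
    have hlen : y.length ≤ K := hK _ hP
    have hyne : t ≠ [] := by
      rintro rfl
      have e1 : y = [] := by rw [← hs3]; rfl
      have e2 := hmon _ hP
      simp only [e1, List.length_nil, Nat.le_zero, List.length_eq_zero_iff] at e2
      obtain ⟨A, hA⟩ := H.lhs _ hP
      simp only at hA
      rw [e2] at hA
      simp at hA
    have hyz : t ++ (s ++ q) ∈ lang H (JStep H) := by
      change Relation.ReflTransGen (JStep H) _ ((t ++ (s ++ q)).map Symbol.terminal)
      refine hc.tail ⟨x, y, u, v, [], u' ++ v', hP, h1, by simpa using h2, ?_⟩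
      rw [List.map_append, List.map_append, hs2, hs3, hp3]
      simp
    have hzy : (s ++ q) ++ t ∈ lang H (JStep H) := by
      change Relation.ReflTransGen (JStep H) _ (((s ++ q) ++ t).map Symbol.terminal)
      refine hc.tail ⟨x, y, u, v, u' ++ v', [], hP, h1, by simpa using h2, ?_⟩
      rw [List.map_append, List.map_append, hs2, hs3, hp3]
      simp
    obtain ⟨m, hm⟩ := (hmem _).1 hyz
    obtain ⟨n, hn⟩ := (hmem _).1 hzy
    have hz := no_commute hm.symm hn.symm hyne
    obtain ⟨rfl, rfl⟩ := List.append_eq_nil_iff.1 hz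
    have hL := congrArg List.length hp1
    rw [hs1] at hL
    simp only [List.nil_append, List.append_nil] at hL
    rw [ab_length] at hL
    have : y.length = t.length := by rw [← hs3, List.length_map]
    omega

end Pool.Agent.Results.MP_b8a1e8_lc.NotIncluded
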